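import Mathlib
import Pool.Agent.H.MP_d8403e_co.A

namespace Pool.Agent.Results.MP_d8403e_co.No

open Finset Pointwise Pool.Agent.H.MP_d8403e_co

/-- the number of subsets `S` of `{0, ..., n-1}` with `|S - S| = m` -/
noncomputable def N (n m : ℕ) : ℕ := #{S ∈ (Ico (0 : ℤ) n).powerset | #(S - S) = m}

/-- the probability that a uniformly random subset has `|S - S| = m` -/
noncomputable def P (n m : ℕ) : ℝ := N n m / 2 ^ n

/-- a divot of a sequence, zero terms being skipped -/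
def Divot (Q : ℕ → ℝ) (i : ℕ) : Prop := 0 < Q i ∧ ∃ j j', IsGreatest {k | k < i ∧ Q k ≠ 0} j ∧
  IsLeast {k | i < k ∧ Q k ≠ 0} j' ∧ Q i < Q j ∧ Q i < Q j'

lemma N_even (n m : ℕ) : N n (2 * m + 2) = 0 := by
  rw [N, card_eq_zero, filter_eq_empty_iff]
  intro S _ h
  rcases S.eq_empty_or_nonempty with rfl | c
  · simp at h
  · obtain ⟨k, a, -⟩ := card_diff c; omega

lemma N41_pos {n : ℕ} (h : 27 ≤ n) : 0 < N n 41 :=
  card_pos.2 ⟨{0, 1, 2, 5, 11, 18, 26}, mem_filter.2 ⟨mem_powerset.2 fun x hx => by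
    simp only [mem_insert, mem_singleton] at hx; simp only [mem_Ico]; omega, by decide +kernel⟩⟩

lemma ap_card (n : ℕ) : 4 * #((range n).sigma fun c => Icc 1 (c / 2)) + n ≤ n ^ 2 := by
  rw [card_sigma]
  simp only [Nat.card_Icc, Nat.add_sub_cancel]
  induction n with
  | zero => simp
  | succ n ih => rw [sum_range_succ]; have := Nat.div_mul_le_self n 2; nlinarith

open Classical in
lemma N41_le (n : ℕ) : 4 * N n 41 ≤ n ^ 2 * n.choose 4 + 4 * (33 ^ 6 * n ^ 5 * 2 ^ 252) := by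
  let A := (range n).sigma fun c => Icc 1 (c / 2)
  let U7 := (A ×ˢ powersetCard 4 (Ico (0 : ℤ) n)).image fun p =>
    ({(p.1.1 : ℤ) - 2 * p.1.2, (p.1.1 : ℤ) - p.1.2, (p.1.1 : ℤ)} : Finset ℤ) ∪ p.2
  let U8 := {t ∈ tup 6 n | ¬ Gen t}.biUnion fun t =>
    (univ.image fun p : Cand => φ t (cv p) / 2).powerset
  have h7 : #U7 ≤ #A * n.choose 4 := card_image_le.trans (by simp)
  have h8 : #U8 ≤ 33 ^ 6 * n ^ 5 * 2 ^ 252 :=
    (card_biUnion_le_card_mul _ _ (2 ^ 252) fun t _ => by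
      rw [card_powerset]
      exact Nat.pow_le_pow_right two_pos (card_image_le.trans (by simp))).trans
      (Nat.mul_le_mul_right _ (nongen 5 n))
  have : N n 41 ≤ #U7 + #U8 := by
    refine (card_le_card fun S hS => ?_).trans (card_union_le _ _)
    obtain ⟨h1, h2⟩ := mem_filter.1 hS
    rw [mem_powerset] at h1
    have ne : S.Nonempty := by
      rcases S.eq_empty_or_nonempty with rfl | c
      · simp at h2
      · exact c
    have d0 := diff_le S ∅ (empty_subset _) (by simp)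
    rcases lt_trichotomy #S 7 with c | c | c
    · have : #S * #S ≤ 6 * #S := Nat.mul_le_mul_right _ (by omega)
      simp at d0; omega
    · refine mem_union_left _ ?_
      have ap : ∀ x ∈ S, ∀ y ∈ S, ∀ z ∈ S, x + z = y + y → x < z → S ∈ U7 := by
        intro x hx y hy z hz e l
        have a1 := mem_Ico.1 (h1 hx)
        have a2 := mem_Ico.1 (h1 hz)
        have sub : ({x, y, z} : Finset ℤ) ⊆ S := by simp [insert_subset_iff, hx, hy, hz]
        refine mem_image.2 ⟨(⟨z.toNat, (z - y).toNat⟩, S \ {x, y, z}), mem_product.2 ⟨?_,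
          mem_powersetCard.2 ⟨sdiff_subset.trans h1, ?_⟩⟩, ?_⟩
        · simp only [A, mem_sigma, mem_range, mem_Icc]; omega
        · rw [card_sdiff_of_subset sub, card_eq_three.2 ⟨x, y, z, by omega, by omega, by omega, rfl⟩, c]
        · simp only
          rw [show (z.toNat : ℤ) - 2 * (z - y).toNat = x by omega,
            show (z.toNat : ℤ) - (z - y).toNat = y by omega, show (z.toNat : ℤ) = z by omega,
            union_sdiff_of_subset sub]
      have : ¬ Sidon S := fun k => by have := k.le le_rfl ne; rw [c] at this; omega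
      simp only [Sidon, not_forall, not_or] at this
      obtain ⟨a, ha, b, hb, d, hd, e, he, k, k1, k2⟩ := this
      by_cases c1 : a = e
      · rcases lt_trichotomy b d with l | l | l
        exacts [ap b hb a ha d hd (by omega) l, by omega, ap d hd a ha b hb (by omega) l]
      by_cases c2 : b = d
      · rcases lt_trichotomy a e with l | l | l
        exacts [ap a ha b hb e he (by omega) l, by omega, ap e he b hb a ha (by omega) l]
      have := par_le ha hb hd he k k1 k2 c1 c2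
      rw [c] at this; omega
    · obtain ⟨t, t1, t2⟩ := cover ne h2.le
      refine mem_union_right _ (mem_biUnion.2 ⟨t, mem_filter.2 ⟨Fintype.mem_piFinset.2
        fun i => h1 (t1 i), fun g => ?_⟩, mem_powerset.2 fun x hx => ?_⟩)
      · have := big g t1 t2 c; omega
      · obtain ⟨p, hp⟩ := t2 x hx
        exact mem_image.2 ⟨p, mem_univ _, by omega⟩
  have := Nat.mul_le_mul_right (n.choose 4) (le_trans (Nat.le_add_right _ _) (ap_card n))
  rw [mul_assoc] at this
  simp only [A] at h7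
  omega

open Classical in
lemma N43_ge (n : ℕ) : n ^ 7 ≤ 7 ^ 7 * N n 43 + 33 ^ 7 * n ^ 6 := by
  have h1 : #{t ∈ tup 7 n | Gen t} + #{t ∈ tup 7 n | ¬ Gen t} = #(tup 7 n) :=
    card_filter_add_card_filter_not _
  have h2 : #{t ∈ tup 7 n | ¬ Gen t} ≤ 33 ^ 7 * n ^ 6 := nongen 6 n
  have h3 : #{t ∈ tup 7 n | Gen t} ≤ 7 ^ 7 * N n 43 := by
    refine card_le_mul_card_image_of_maps_to (f := fun t => univ.image t) (fun t ht => ?_) _
      fun S hS => ?_
    · obtain ⟨a, g⟩ := mem_filter.1 ht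
      have c : #(univ.image t) = 7 := by rw [card_image_of_injective _ g.inj]; simp
      refine mem_filter.2 ⟨mem_powerset.2 fun x hx => ?_, le_antisymm ?_ ?_⟩
      · obtain ⟨i, -, rfl⟩ := mem_image.1 hx
        exact Fintype.mem_piFinset.1 a i
      · have := diff_le (univ.image t) ∅ (empty_subset _) (by simp)
        rw [c] at this; simpa using this
      · have := Sidon.le (T := univ.image t) (by
          simp only [Sidon, mem_image, mem_univ, true_and]
          rintro _ ⟨a, rfl⟩ _ ⟨b, rfl⟩ _ ⟨c, rfl⟩ _ ⟨d, rfl⟩ e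
          exact (g.sidon e).imp (congrArg t) (congrArg t)) le_rfl (card_pos.1 (by omega))
        rwa [c] at this
    · by_cases c : #S = 7
      · refine (card_le_card (t := Fintype.piFinset fun _ => S) fun t ht => ?_).trans (by simp [c])
        rw [← (mem_filter.1 ht).2]
        exact Fintype.mem_piFinset.2 fun i => mem_image_of_mem _ (mem_univ _)
      · rw [filter_eq_empty_iff.2 fun t ht e => c ?_]
        · simp
        · rw [← e, card_image_of_injective _ (mem_filter.1 ht).2.inj]; simp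
  have : #(tup 7 n) = n ^ 7 := by simp [tup]
  rw [← this, ← h1]
  exact Nat.add_le_add h3 h2

def u : Fin 7 → Fin 6 → ℤ := ![Pi.single 0 1, Pi.single 1 1, Pi.single 2 1,
  Pi.single 0 1 + Pi.single 2 1 - Pi.single 1 1, Pi.single 3 1, Pi.single 4 1, Pi.single 5 1]

def St (t : Fin 6 → ℤ) : Finset ℤ := {t 0, t 1, t 2, t 0 + t 2 - t 1, t 3, t 4, t 5}

lemma St_eq (t : Fin 6 → ℤ) : St t = univ.image fun i => φ t (u i) := by
  ext x
  simp [St, Fin.exists_fin_succ, u, φ_add, φ_sub, φ_single, eq_comm]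

lemma u_val (t : Fin 6 → ℤ) : φ t (u 0) = t 0 ∧ φ t (u 1) = t 1 ∧ φ t (u 2) = t 2 ∧
    φ t (u 3) = t 0 + t 2 - t 1 ∧ φ t (u 4) = t 3 ∧ φ t (u 5) = t 4 ∧ φ t (u 6) = t 5 := by
  simp [u, φ_add, φ_sub, φ_single]

lemma u1 : ∀ i j, |u i j| ≤ 1 := by decide +kernel

lemma u2 : ∀ i j k l : Fin 7, φ β (u i) + φ β (u j) = φ β (u k) + φ β (u l) →
    i = k ∨ i = l ∨ ((i = 0 ∨ i = 2) ∧ (j = 0 ∨ j = 2) ∧ (k = 1 ∨ k = 3)) ∨
      ((i = 1 ∨ i = 3) ∧ (j = 1 ∨ j = 3) ∧ (k = 0 ∨ k = 2)) := by decide +kernel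

lemma rel {t : Fin 6 → ℤ} (g : Gen t) {i j k l : Fin 7}
    (e : φ t (u i) + φ t (u j) = φ t (u k) + φ t (u l)) :
    φ β (u i) + φ β (u j) = φ β (u k) + φ β (u l) := by
  have := congrArg (φ β) (sub_eq_zero.1 (g (u i + u j - (u k + u l)) (fun a => by
    have := u1 i a; have := u1 j a; have := u1 k a; have := u1 l a
    simp only [Pi.sub_apply, Pi.add_apply, abs_le] at *; omega)
    (by simp only [φ_sub, φ_add]; omega)))
  simpa only [φ_add] using this

lemma u_inj {t : Fin 6 → ℤ} (g : Gen t) : Function.Injective fun i => φ t (u i) := fun i j e => by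
  have := rel g (i := i) (j := i) (k := j) (l := i) (by simp only at e; rw [e])
  clear e; revert this; revert i j; decide +kernel

lemma St39 {t : Fin 6 → ℤ} (g : Gen t) : #(St t - St t) = 39 := by
  have c : #(St t) = 7 := by rw [St_eq, card_image_of_injective _ (u_inj g)]; simp
  have i := g.inj
  have a1 := par_le (S := St t) (a := t 0) (b := t 1) (c := t 0 + t 2 - t 1) (d := t 2)
    (by simp [St]) (by simp [St]) (by simp [St]) (by simp [St]) (by ring) (i.ne (by decide))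
    (by have := i.ne (show 1 ≠ 2 by decide); omega) (i.ne (by decide))
    (by have := mt (g.sidon (a := 1) (d := 1) (b := 0) (c := 2)) (by decide); omega)
  have a2 := transfer g ((List.finRange 7).map fun i => u i + u i) (by simp) (by decide +kernel)
    (St t) (fun w hw => by
      obtain ⟨i, -, rfl⟩ := List.mem_map.1 hw
      exact ⟨_, St_eq t ▸ mem_image_of_mem _ (mem_univ i), by rw [φ_add, two_mul]⟩)
  have a3 : 20 ≤ (dl (((List.finRange 7).map fun i => u i + u i).map (φ β))).dedup.length := by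
    decide +kernel
  obtain ⟨k, k1, k2⟩ := card_diff (S := St t) (card_pos.1 (by omega))
  rw [c] at a1; omega

def Srt (t : Fin 6 → ℤ) : Prop := t 0 < t 1 ∧ t 1 < t 2 ∧ t 3 < t 4 ∧ t 4 < t 5

lemma fib {t s : Fin 6 → ℤ} (g : Gen t) (g' : Gen s) (h : Srt t) (h' : Srt s) (e : St t = St s)
    (e' : t 1 + t 1 < t 0 + t 2 ↔ s 1 + s 1 < s 0 + s 2) : t = s := by
  have m : ∀ a, ∃ i, φ t (u i) = φ s (u a) := fun a => by
    have := mem_image_of_mem (fun i => φ s (u i)) (mem_univ a)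
    rw [← St_eq, ← e, St_eq] at this
    simpa using this
  obtain ⟨v0, v1, v2, v3, v4, v5, v6⟩ := u_val t
  obtain ⟨w0, w1, w2, w3, w4, w5, w6⟩ := u_val s
  unfold Srt at h h'
  have k : t 0 = s 0 ∧ t 2 = s 2 ∧ (s 1 = t 1 ∨ s 1 = t 0 + t 2 - t 1) := by
    obtain ⟨i, hi⟩ := m 0
    obtain ⟨j, hj⟩ := m 2
    obtain ⟨k, hk⟩ := m 1
    obtain ⟨l, hl⟩ := m 3
    rcases u2 i j k l (rel g (by omega)) with rfl | rfl | ⟨a, b, c⟩ | ⟨a, b, c⟩
    · omega
    · omega
    · rcases a with rfl | rfl <;> rcases b with rfl | rfl <;> rcases c with rfl | rfl <;> omega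
    · rcases a with rfl | rfl <;> rcases b with rfl | rfl <;> rcases c with rfl | rfl <;> omega
  have k1 : t 1 = s 1 := by omega
  have n : ∀ a, 4 ≤ a.val → φ s (u a) = t 3 ∨ φ s (u a) = t 4 ∨ φ s (u a) = t 5 := by
    intro a ha
    have := mem_image_of_mem (fun i => φ s (u i)) (mem_univ a)
    rw [← St_eq, ← e] at this
    have i := fun b : Fin 7 => mt (@u_inj s g' a b)
    have i0 := i 0 (by omega); have i1 := i 1 (by omega)
    have i2 := i 2 (by omega); have i3 := i 3 (by omega)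
    simp only [St, mem_insert, mem_singleton] at this i0 i1 i2 i3
    omega
  have := n 4 (by decide); have := n 5 (by decide); have := n 6 (by decide)
  funext i
  fin_cases i <;> simp <;> omega

lemma sort3 {A : Finset ℤ} (h : #A = 3) : ∃ x y z, x < y ∧ y < z ∧ A = {x, y, z} := by
  obtain ⟨x, y, z, a, b, c, rfl⟩ := card_eq_three.1 h
  have e : ∀ p q r : ℤ, p < q → q < r → (∀ w, w = x ∨ w = y ∨ w = z ↔ w = p ∨ w = q ∨ w = r) →
      ∃ x' y' z', x' < y' ∧ y' < z' ∧ ({x, y, z} : Finset ℤ) = {x', y', z'} :=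
    fun p q r h1 h2 h3 => ⟨p, q, r, h1, h2, by ext w; simpa using h3 w⟩
  rcases lt_or_gt_of_ne a with a | a <;> rcases lt_or_gt_of_ne b with b | b <;>
    rcases lt_or_gt_of_ne c with c | c
  exacts [e x y z a c (by tauto), e x z y b c (by tauto), by omega, e z x y b a (by tauto),
    e y x z a b (by tauto), by omega, e y z x c b (by tauto), e z y x c a (by tauto)]

open Classical in
lemma N39_ge (n : ℕ) : n.choose 3 ^ 2 ≤ 2 * N n 39 + 33 ^ 6 * n ^ 5 := by
  have h1 : n.choose 3 ^ 2 ≤ #{t ∈ tup 6 n | Srt t} := by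
    refine le_trans (by simp [sq]) (card_le_card_of_surjOn
      (t := powersetCard 3 (Ico (0 : ℤ) n) ×ˢ powersetCard 3 (Ico (0 : ℤ) n))
      (fun t => ({t 0, t 1, t 2}, {t 3, t 4, t 5})) ?_)
    rintro ⟨A, B⟩ h
    simp only [coe_product, Set.mem_prod, mem_coe, mem_powersetCard] at h
    obtain ⟨a, b, c, a1, a2, rfl⟩ := sort3 h.1.2
    obtain ⟨d, e, f, b1, b2, rfl⟩ := sort3 h.2.2
    refine ⟨![a, b, c, d, e, f], mem_filter.2 ⟨Fintype.mem_piFinset.2 fun i => ?_,
      a1, a2, b1, b2⟩, rfl⟩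
    fin_cases i
    exacts [h.1.1 (by simp), h.1.1 (by simp), h.1.1 (by simp), h.2.1 (by simp), h.2.1 (by simp),
      h.2.1 (by simp)]
  have h2 : #{t ∈ tup 6 n | Srt t} ≤ #{t ∈ tup 6 n | Srt t ∧ Gen t} + #{t ∈ tup 6 n | ¬ Gen t} :=
    (card_le_card fun t ht => by simp only [mem_union, mem_filter] at *; tauto).trans
      (card_union_le _ _)
  have h3 : #{t ∈ tup 6 n | Srt t ∧ Gen t} ≤ N n 39 * 2 := by
    refine (card_le_card_of_injOn (t := {S ∈ (Ico (0 : ℤ) n).powerset | #(S - S) = 39} ×ˢ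
      (univ : Finset Prop)) (fun t => (St t, t 1 + t 1 < t 0 + t 2)) (fun t ht => ?_)
      fun t ht s hs e => ?_).trans (by simp [N])
    · obtain ⟨a, b, c⟩ := mem_filter.1 ht
      refine mem_product.2 ⟨mem_filter.2 ⟨mem_powerset.2 fun x hx => ?_, St39 c⟩, mem_univ _⟩
      have a := fun i => mem_Ico.1 (Fintype.mem_piFinset.1 a i)
      have := a 0; have := a 1; have := a 2; have := a 3; have := a 4; have := a 5
      unfold Srt at b
      simp only [St, mem_insert, mem_singleton] at hx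
      rw [mem_Ico]; omega
    · obtain ⟨-, b, c⟩ := mem_filter.1 ht
      obtain ⟨-, b', c'⟩ := mem_filter.1 hs
      exact fib c c' b b' (congrArg Prod.fst e) (iff_of_eq (congrArg Prod.snd e))
  have : #{t ∈ tup 6 n | ¬ Gen t} ≤ 33 ^ 6 * n ^ 5 := nongen 5 n
  omega

theorem result : (¬ ∃ k : ℕ, 2 ≤ k ∧ 41 = k * (k - 1) + 3) ∧
    ∃ n₀, ∀ n ≥ n₀, Divot (P n) 41 := by
  refine ⟨fun ⟨k, h1, h2⟩ => ?_, ?_⟩
  · have : k ≤ 7 := by
      by_contra c
      have : 8 * 7 ≤ k * (k - 1) := Nat.mul_le_mul (by omega) (by omega)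
      omega
    interval_cases k <;> omega
  obtain ⟨K, hK, k1, k2⟩ : ∃ K : ℝ, 27 ≤ K ∧ (33 : ℝ) ^ 6 * 2 ^ 252 ≤ K ∧ (33 : ℝ) ^ 7 ≤ K :=
    ⟨33 ^ 7 * 2 ^ 252, by norm_num, by norm_num, by norm_num⟩
  refine ⟨⌈10 ^ 6 * K⌉₊ + 1, fun n hn => ?_⟩
  have n1 : 10 ^ 6 * K < n := (Nat.le_ceil _).trans_lt (by exact_mod_cast hn)
  have n27 : 27 ≤ n := by exact_mod_cast (show (27 : ℝ) ≤ n by linarith)
  have n0 : (0 : ℝ) < n := by linarith
  have p5 : (0 : ℝ) < n ^ 5 := by positivity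
  have a1 : (N n 41 : ℝ) ≤ n ^ 6 / 96 + K * n ^ 5 := by
    have h : (4 * N n 41 : ℝ) ≤ n ^ 2 * n.choose 4 + 4 * (33 ^ 6 * n ^ 5 * 2 ^ 252) := by
      exact_mod_cast N41_le n
    have h2 := Nat.choose_le_pow_div (α := ℝ) 4 n
    have h3 := mul_le_mul_of_nonneg_left h2 (sq_nonneg (n : ℝ))
    have h4 := mul_le_mul_of_nonneg_right k1 p5.le
    norm_num [Nat.factorial] at h3
    nlinarith
  have a2 : (n : ℝ) ^ 6 / 36 - n ^ 5 / 3 ≤ 2 * N n 39 + K * n ^ 5 := by
    have h : ((n.choose 3 : ℝ)) ^ 2 ≤ 2 * N n 39 + 33 ^ 6 * n ^ 5 := by exact_mod_cast N39_ge n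
    have h2 := Nat.pow_le_choose (α := ℝ) 3 n
    rw [show ((n + 1 - 3 : ℕ) : ℝ) = n - 2 by
      rw [show n + 1 - 3 = n - 2 by omega, Nat.cast_sub (by omega)]; norm_num] at h2
    have h3 := pow_le_pow_left₀ (by have : (0 : ℝ) ≤ n - 2 := by linarith
                                    positivity) h2 2
    have h5 : (n : ℝ) ^ 6 - 12 * n ^ 5 ≤ (n - 2) ^ 6 := by
      have := one_add_mul_le_pow (a := (-2 : ℝ) / n) (by
        rw [le_div_iff₀ n0]; linarith) 6
      have e : ((n : ℝ) - 2) ^ 6 = n ^ 6 * (1 + -2 / n) ^ 6 := by field_simp; ring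
      have e2 : (n : ℝ) ^ 6 - 12 * n ^ 5 = n ^ 6 * (1 + (6 : ℕ) * (-2 / n)) := by
        field_simp; push_cast; ring
      rw [e, e2]; exact mul_le_mul_of_nonneg_left this (by positivity)
    have h6 : (33 : ℝ) ^ 6 * n ^ 5 ≤ K * n ^ 5 := mul_le_mul_of_nonneg_right (by linarith) p5.le
    norm_num [Nat.factorial] at h3
    nlinarith
  have a3 : (n : ℝ) ^ 7 ≤ 7 ^ 7 * N n 43 + K * n ^ 6 := by
    have h : (n : ℝ) ^ 7 ≤ 7 ^ 7 * N n 43 + 33 ^ 7 * n ^ 6 := by exact_mod_cast N43_ge n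
    have := mul_le_mul_of_nonneg_right k2 (show (0 : ℝ) ≤ n ^ 6 by positivity)
    linarith
  have q1 : 10 ^ 6 * K * n ^ 5 < n ^ 6 := by
    have := mul_lt_mul_of_pos_right n1 p5; linarith [pow_succ' (n : ℝ) 5]
  have q2 : 10 ^ 6 * K * n ^ 6 < n ^ 7 := by
    have := mul_lt_mul_of_pos_right n1 (show (0 : ℝ) < n ^ 6 by positivity)
    linarith [pow_succ' (n : ℝ) 6]
  have q3 : 27 * (n : ℝ) ^ 5 ≤ K * n ^ 5 := mul_le_mul_of_nonneg_right hK p5.le
  have q4 : 27 * (n : ℝ) ^ 6 ≤ K * n ^ 6 := mul_le_mul_of_nonneg_right hK (by positivity)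
  have b1 : (N n 41 : ℝ) < N n 39 := by nlinarith
  have b2 : (N n 41 : ℝ) < N n 43 := by nlinarith
  have b0 : (0 : ℝ) < N n 41 := by exact_mod_cast N41_pos n27
  have t : (0 : ℝ) < 2 ^ n := by positivity
  refine ⟨div_pos b0 t, 39, 43, ⟨⟨by norm_num, (div_pos (b0.trans b1) t).ne'⟩, fun k hk => ?_⟩,
    ⟨⟨by norm_num, (div_pos (b0.trans b2) t).ne'⟩, fun k hk => ?_⟩,
    div_lt_div_of_pos_right b1 t, div_lt_div_of_pos_right b2 t⟩
  · by_contra c
    obtain rfl : k = 2 * 19 + 2 := by have := hk.1; omega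
    exact hk.2 (by rw [P, N_even]; simp)
  · by_contra c
    obtain rfl : k = 2 * 20 + 2 := by have := hk.1; omega
    exact hk.2 (by rw [P, N_even]; simp)

end Pool.Agent.Results.MP_d8403e_co.No
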